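import Pool.Agent.K1H72.OP.Stm

/-! OP-1: classification of the overpartitions by the largest part. -/

set_option autoImplicit false

namespace Pool.Agent.K1H63.OP

open K1H72.OP
open Finset PowerSeries
open scoped PowerSeries.WithPiTopology

/-- the number of sizes -/
def dd {n : ℕ} (p : n.Partition) : ℕ := p.parts.toFinset.card

theorem sup_le {n : ℕ} (p : n.Partition) : p.parts.sup ≤ n :=
  Multiset.sup_le.2 fun _ hb => p.le_of_mem_parts hb

theorem sup_mem (s : Multiset ℕ) : s ≠ 0 → s.sup ∈ s := by
  induction s using Multiset.induction_on with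
  | empty => intro h; exact absurd rfl h
  | cons a t ih =>
    intro _
    rw [Multiset.sup_cons]
    rcases eq_or_ne t 0 with h0 | h0
    · rw [h0]
      simp
    · have h1 := ih h0
      rcases le_total a t.sup with h | h
      · rw [sup_eq_right.2 h]
        exact Multiset.mem_cons_of_mem h1
      · rw [sup_eq_left.2 h]
        exact Multiset.mem_cons_self _ _

theorem missing_add {n : ℕ} (p : n.Partition) : missing p + dd p = p.parts.sup := by
  classical
  rcases eq_or_ne p.parts 0 with h0 | h0
  · unfold missing dd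
    rw [h0]
    simp
  · have hm := sup_mem _ h0
    have hpos := p.parts_pos hm
    have h1 : (Finset.Ico 1 p.parts.sup).filter (fun m => m ∉ p.parts) =
        Finset.Icc 1 p.parts.sup \ p.parts.toFinset := by
      ext m
      simp only [Finset.mem_filter, Finset.mem_Ico, Finset.mem_sdiff, Finset.mem_Icc,
        Multiset.mem_toFinset]
      constructor
      · rintro ⟨⟨a, b⟩, c⟩
        exact ⟨⟨a, b.le⟩, c⟩
      · rintro ⟨⟨a, b⟩, c⟩
        refine ⟨⟨a, lt_of_le_of_ne b ?_⟩, c⟩
        rintro rfl
        exact c hm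
    have h2 : p.parts.toFinset ⊆ Finset.Icc 1 p.parts.sup := by
      intro m hm
      rw [Multiset.mem_toFinset] at hm
      rw [Finset.mem_Icc]
      exact ⟨p.parts_pos hm, Multiset.le_sup hm⟩
    unfold missing dd
    rw [h1, Finset.card_sdiff_add_card_eq_card h2, Nat.card_Icc]
    omega

theorem a_eq (n : ℕ) : a n = ∑ p : n.Partition, (-1) ^ p.parts.sup * (-2) ^ dd p := by
  have h1 : a n = ∑ π : Overpartition n, (-1 : ℤ) ^ missing π.1 := by
    unfold a Me Mo
    rw [Finset.card_filter, Finset.card_filter]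
    push_cast
    rw [← Finset.sum_sub_distrib]
    refine Finset.sum_congr rfl fun π _ => ?_
    rcases Nat.even_or_odd (missing π.1) with h | h
    · rw [if_pos h, if_neg (Nat.not_odd_iff_even.2 h), h.neg_one_pow]
      norm_num
    · rw [if_neg (Nat.not_even_iff_odd.2 h), if_pos h, h.neg_one_pow]
      norm_num
  rw [h1, Fintype.sum_sigma]
  refine Finset.sum_congr rfl fun p _ => ?_
  simp only
  rw [Finset.sum_const, Finset.card_univ, Fintype.card_coe, Finset.card_powerset, ← missing_add,
    pow_add, mul_assoc, ← mul_pow, nsmul_eq_mul, mul_comm]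
  unfold dd
  push_cast
  norm_num

/-- the partial products -/
noncomputable def GG (m : ℕ) : PowerSeries ℤ :=
  ∏ i ∈ Finset.range m, ((1 - 3 * PowerSeries.X ^ (i + 1)) * E i)

theorem E_mul (i : ℕ) : E i * (1 - PowerSeries.X ^ (i + 1)) = 1 := by
  ext n
  rw [mul_sub, mul_one, map_sub, PowerSeries.coeff_mul_X_pow', PowerSeries.coeff_one]
  unfold E
  rw [PowerSeries.coeff_mk]
  by_cases h : i + 1 ≤ n
  · rw [if_pos h, PowerSeries.coeff_mk, if_neg (show n ≠ 0 by omega)]
    have : (i + 1 ∣ n) ↔ (i + 1 ∣ n - (i + 1)) := by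
      constructor
      · intro h2
        exact Nat.dvd_sub h2 (dvd_refl _)
      · intro h2
        have := Nat.dvd_add h2 (dvd_refl (i + 1))
        rwa [Nat.sub_add_cancel h] at this
    simp only [this, sub_self]
  · rw [if_neg h, sub_zero]
    by_cases h0 : n = 0
    · rw [if_pos h0, h0, if_pos (dvd_zero _)]
    · rw [if_neg h0, if_neg fun hd => h (Nat.le_of_dvd (Nat.pos_of_ne_zero h0) hd)]

theorem fac (i : ℕ) : (1 - 3 * PowerSeries.X ^ (i + 1)) * E i =
    1 + -2 * PowerSeries.X ^ (i + 1) * E i := by
  have h := E_mul i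
  linear_combination h

theorem T_succ (m : ℕ) : T (m + 1) = GG (m + 1) - GG m := by
  unfold GG
  rw [Finset.prod_range_succ, fac m]
  simp only [T]
  ring

theorem T_zero : T 0 = GG 0 := by
  unfold GG
  simp [T]

/-- the character -/
def ch (m i _c : ℕ) : ℤ := if i ≤ m then -2 else 0

/-- a monomial -/
noncomputable def sm {R : Type} [CommSemiring R] (c : R) (k : ℕ) : PowerSeries R :=
  c • PowerSeries.X ^ k

theorem coeff_sm {R : Type} [CommSemiring R] (c : R) (k n : ℕ) :
    PowerSeries.coeff n (sm c k) = c * if n = k then 1 else 0 := by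
  unfold sm
  rw [map_smul, PowerSeries.coeff_X_pow, smul_eq_mul]

theorem sm_zero {R : Type} [CommSemiring R] (k : ℕ) : sm (0 : R) k = 0 := by
  unfold sm
  rw [zero_smul]

theorem ser (i : ℕ) : (1 + ∑' j : ℕ, sm (-2 : ℤ) ((i + 1) * (j + 1))) =
    (1 - 3 * PowerSeries.X ^ (i + 1)) * E i := by
  rw [fac]
  congr 1
  have hs : Summable (fun j : ℕ => sm (-2 : ℤ) ((i + 1) * (j + 1))) :=
    Nat.Partition.summable_genFun_term (R := ℤ) (fun _ _ => (-2 : ℤ)) i
  ext n
  rw [hs.map_tsum _ (PowerSeries.WithPiTopology.continuous_coeff _ _)]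
  have h2 : (-2 * PowerSeries.X ^ (i + 1) * E i : PowerSeries ℤ) =
      PowerSeries.C (-2 : ℤ) * (PowerSeries.X ^ (i + 1) * E i) := by
    rw [map_neg, map_ofNat]
    ring
  rw [h2, PowerSeries.coeff_C_mul, PowerSeries.coeff_X_pow_mul']
  simp only [coeff_sm]
  by_cases h : i + 1 ≤ n
  · rw [if_pos h]
    unfold E
    rw [PowerSeries.coeff_mk]
    by_cases hd : i + 1 ∣ n - (i + 1)
    · rw [if_pos hd]
      obtain ⟨c, hc⟩ := hd
      rw [tsum_eq_single c]
      · rw [if_pos]
        rw [mul_add, mul_one]
        omega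
      · intro j hj
        rw [if_neg, mul_zero]
        intro h3
        apply hj
        have h4 : (i + 1) * (j + 1) = (i + 1) * (c + 1) := by
          rw [← h3, mul_add (i + 1) c 1, mul_one]
          omega
        have := Nat.eq_of_mul_eq_mul_left (Nat.succ_pos i) h4
        omega
    · rw [if_neg hd, mul_zero]
      refine (tsum_congr fun j => ?_).trans tsum_zero
      rw [if_neg, mul_zero]
      intro h3
      apply hd
      rw [h3, mul_add, mul_one, Nat.add_sub_cancel]
      exact dvd_mul_right _ _
  · rw [if_neg h, mul_zero]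
    refine (tsum_congr fun j => ?_).trans tsum_zero
    rw [if_neg, mul_zero]
    intro h3
    apply h
    rw [h3]
    exact Nat.le_mul_of_pos_right _ (Nat.succ_pos j)

theorem gen (m : ℕ) : Nat.Partition.genFun (ch m) = GG m := by
  have h : HasProd (fun i : ℕ => 1 + ∑' j : ℕ, sm (ch m (i + 1) (j + 1)) ((i + 1) * (j + 1)))
      (Nat.Partition.genFun (ch m)) := Nat.Partition.hasProd_genFun (R := ℤ) (ch m)
  have h2 : HasProd (fun i : ℕ => 1 + ∑' j : ℕ, sm (ch m (i + 1) (j + 1)) ((i + 1) * (j + 1)))
      (GG m) := by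
    have h3 := hasProd_prod_of_ne_finset_one (s := Finset.range m)
      (L := SummationFilter.unconditional ℕ)
      (f := fun i : ℕ => 1 + ∑' j : ℕ, sm (ch m (i + 1) (j + 1)) ((i + 1) * (j + 1)))
      (fun i hi => by
        rw [Finset.mem_range] at hi
        have : ∀ j : ℕ, sm (ch m (i + 1) (j + 1)) ((i + 1) * (j + 1)) = 0 := by
          intro j
          unfold ch
          rw [if_neg (by omega), sm_zero]
        simp only [this, tsum_zero, add_zero])
    unfold GG
    convert h3 using 2 with i hi
    rw [← ser]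
    congr 2
    funext j
    unfold ch
    rw [if_pos]
    rw [Finset.mem_range] at hi
    omega
  exact h.unique h2

theorem prodch {n : ℕ} (p : n.Partition) (m : ℕ) :
    p.parts.toFinsupp.prod (ch m) = if p.parts.sup ≤ m then (-2) ^ dd p else 0 := by
  classical
  unfold Finsupp.prod dd
  rw [Multiset.toFinsupp_support]
  by_cases h : p.parts.sup ≤ m
  · rw [if_pos h, ← Finset.prod_const]
    refine Finset.prod_congr rfl fun i hi => ?_
    rw [Multiset.mem_toFinset] at hi
    unfold ch
    rw [if_pos ((Multiset.le_sup hi).trans h)]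
  · rw [if_neg h]
    have h0 : p.parts ≠ 0 := by
      intro h0
      rw [h0] at h
      simp at h
    refine Finset.prod_eq_zero (Multiset.mem_toFinset.2 (sup_mem _ h0)) ?_
    unfold ch
    rw [if_neg h]

theorem coeffG (n m : ℕ) : PowerSeries.coeff n (GG m) =
    ∑ p : n.Partition, if p.parts.sup ≤ m then (-2) ^ dd p else 0 := by
  rw [← gen, Nat.Partition.coeff_genFun]
  exact Finset.sum_congr rfl fun p _ => prodch p m

theorem coeffT (n m : ℕ) : PowerSeries.coeff n (T m) =
    ∑ p : n.Partition, if p.parts.sup = m then (-2) ^ dd p else 0 := by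
  rcases m with _ | m
  · rw [T_zero, coeffG]
    refine Finset.sum_congr rfl fun p _ => ?_
    simp only [Nat.le_zero]
  · rw [T_succ, map_sub, coeffG, coeffG, ← Finset.sum_sub_distrib]
    refine Finset.sum_congr rfl fun p _ => ?_
    by_cases h1 : p.parts.sup ≤ m
    · rw [if_pos h1, if_pos (by omega), if_neg (by omega), sub_self]
    · by_cases h2 : p.parts.sup = m + 1
      · rw [if_neg h1, if_pos h2.le, if_pos h2, sub_zero]
      · rw [if_neg h1, if_neg (by omega), if_neg h2, sub_zero]

theorem t_GF1 : S_GF1 := by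
  intro n N hn
  rw [a_eq]
  simp only [coeffT, Finset.mul_sum]
  rw [Finset.sum_comm]
  refine Finset.sum_congr rfl fun p _ => ?_
  have h1 : p.parts.sup ∈ Finset.range (N + 1) := by
    rw [Finset.mem_range]
    have := sup_le p
    omega
  rw [Finset.sum_eq_single_of_mem _ h1]
  · rw [if_pos rfl]
  · intro m _ hm
    rw [if_neg (Ne.symm hm), mul_zero]

end Pool.Agent.K1H63.OP
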